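import Pool.Agent.W945.Lc.Stm2

/-! LC2-SNL: spectral norm of sums and products. -/

namespace Pool.Agent.W168.Lc2.SNL

open Finset Pool.Agent.W945.Pw Pool.Agent.W945.Lc

theorem chi_eq {n : ℕ} (S : Finset (Fin n)) (x : Fin n → Bool) :
    chi S x = ∏ i, (if i ∈ S then sg (x i) else 1) := by
  unfold chi
  rw [Finset.prod_ite_mem, Finset.univ_inter]

theorem sg_mul_self (b : Bool) : sg b * sg b = 1 := by
  unfold sg
  split_ifs <;> norm_num

theorem chi_mul {n : ℕ} (S T : Finset (Fin n)) (x : Fin n → Bool) :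
    chi S x * chi T x = chi (symmDiff S T) x := by
  rw [chi_eq, chi_eq, chi_eq, ← Finset.prod_mul_distrib]
  refine Finset.prod_congr rfl (fun i _ => ?_)
  by_cases hS : i ∈ S <;> by_cases hT : i ∈ T <;>
    simp [hS, hT, Finset.mem_symmDiff, sg_mul_self]

theorem sum_shift {n : ℕ} (T : Finset (Fin n)) (F : Finset (Fin n) → ℝ) :
    ∑ S, F (symmDiff S T) = ∑ S, F S := by
  refine Fintype.sum_bijective (fun S => symmDiff S T) ?_ _ _ (fun _ => rfl)
  exact (symmDiff_left_involutive T).bijective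

theorem prod_SN {n : ℕ} (f g : (Fin n → Bool) → ℝ) (a b : ℝ) (hf : SN f a) (hg : SN g b) :
    SN (fun x => f x * g x) (a * b) := by
  obtain ⟨c₁, h1, h1'⟩ := hf
  obtain ⟨c₂, h2, h2'⟩ := hg
  refine ⟨fun S => ∑ T, c₁ T * c₂ (symmDiff S T), ?_, ?_⟩
  · intro x
    show f x * g x = ∑ S, (∑ T, c₁ T * c₂ (symmDiff S T)) * chi S x
    have e1 : ∑ S, (∑ T, c₁ T * c₂ (symmDiff S T)) * chi S x
        = ∑ T, ∑ S, c₁ T * c₂ (symmDiff S T) * chi S x := by
      rw [Finset.sum_comm]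
      refine Finset.sum_congr rfl (fun S _ => ?_)
      rw [Finset.sum_mul]
    rw [e1, h1 x, h2 x, Finset.sum_mul]
    refine Finset.sum_congr rfl (fun T _ => ?_)
    rw [Finset.mul_sum, ← sum_shift T (fun U => c₁ T * chi T x * (c₂ U * chi U x))]
    refine Finset.sum_congr rfl (fun S _ => ?_)
    have e2 : chi T x * chi (symmDiff S T) x = chi S x := by
      rw [chi_mul, symmDiff_comm S T, symmDiff_symmDiff_cancel_left]
    calc c₁ T * chi T x * (c₂ (symmDiff S T) * chi (symmDiff S T) x)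
        = c₁ T * c₂ (symmDiff S T) * (chi T x * chi (symmDiff S T) x) := by ring
      _ = _ := by rw [e2]
  · have h0 : 0 ≤ ∑ S, |c₁ S| := Finset.sum_nonneg (fun _ _ => abs_nonneg _)
    have h0' : 0 ≤ ∑ S, |c₂ S| := Finset.sum_nonneg (fun _ _ => abs_nonneg _)
    calc ∑ S, |∑ T, c₁ T * c₂ (symmDiff S T)|
        ≤ ∑ S, ∑ T, |c₁ T| * |c₂ (symmDiff S T)| := by
          refine Finset.sum_le_sum (fun S _ => (Finset.abs_sum_le_sum_abs _ _).trans ?_)
          refine Finset.sum_le_sum (fun T _ => ?_)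
          rw [abs_mul]
      _ = ∑ T, ∑ S, |c₁ T| * |c₂ (symmDiff S T)| := Finset.sum_comm
      _ = ∑ T, |c₁ T| * ∑ S, |c₂ S| := by
          refine Finset.sum_congr rfl (fun T _ => ?_)
          rw [← Finset.mul_sum, sum_shift T (fun U => |c₂ U|)]
      _ = (∑ T, |c₁ T|) * ∑ S, |c₂ S| := by rw [Finset.sum_mul]
      _ ≤ a * b := mul_le_mul h1' h2' h0' (h0.trans h1')

theorem main : SNL.Stm := by
  intro n
  refine ⟨?_, ?_, ?_, ?_⟩
  · intro f g a b hf hg
    refine ⟨?_, prod_SN f g a b hf hg⟩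
    obtain ⟨c₁, h1, h1'⟩ := hf
    obtain ⟨c₂, h2, h2'⟩ := hg
    refine ⟨fun S => c₁ S + c₂ S, ?_, ?_⟩
    · intro x
      simp only [h1 x, h2 x, add_mul, Finset.sum_add_distrib]
    · calc ∑ S, |c₁ S + c₂ S| ≤ ∑ S, (|c₁ S| + |c₂ S|) :=
            Finset.sum_le_sum (fun S _ => abs_add_le _ _)
        _ = ∑ S, |c₁ S| + ∑ S, |c₂ S| := Finset.sum_add_distrib
        _ ≤ a + b := add_le_add h1' h2'
  · intro f a b hf hab
    obtain ⟨c, h1, h2⟩ := hf
    exact ⟨c, h1, h2.trans hab⟩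
  · intro b
    refine ⟨fun S => if S = ∅ then ind b else 0, ?_, ?_⟩
    · intro x
      simp [ite_mul, chi]
    · have e : ∀ S : Finset (Fin n), |(if S = ∅ then ind b else 0 : ℝ)|
          = if S = ∅ then |ind b| else 0 := by
        intro S
        split_ifs <;> simp
      simp only [e]
      rw [Finset.sum_ite_eq' Finset.univ ∅ (fun _ => |ind b|)]
      simp only [Finset.mem_univ, if_true]
      unfold ind
      split_ifs <;> norm_num
  · intro P p a f hf
    obtain ⟨c, h1, -, -, h2⟩ := hf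
    exact ⟨c, h1, h2⟩

end Pool.Agent.W168.Lc2.SNL
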